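import Pool.Agent.V7H56.HL.Gr
import Pool.Agent.V7H56.HW.Fin

/-!
# Words with few letters 3
-/

set_option autoImplicit false
set_option linter.unusedSectionVars false

open Module Filter

namespace Pool.Agent.V7H56.HL

open Pool.Agent.V7H32.MZ Pool.Agent.V7H32.MH Pool.Agent.V7H56.HW

/-- **Brown's theorem on the motivic values of the words, with the level filtration.** The algebra
`H` of the motivic multiple zeta values is a domain (a polynomial algebra); the motivic values
`word l` of the words form a basis, with the value `1` for the empty word; the period map `per`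
sends them to the multiple zeta values of the words; products are compatible with the weight and
with the level filtration (the level of a word is the number of its letters `3`). -/
structure MotivicWords where
  /-- the motivic multiple zeta values -/
  H : Type
  [ring : CommRing H]
  [dom : IsDomain H]
  [alg : Algebra ℚ H]
  /-- the motivic values of the words -/
  word : Basis {l : List ℕ // IsWord l} ℚ H
  /-- the period map -/
  per : H →ₐ[ℚ] ℝ
  per_word : ∀ l, per (word l) = val l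
  one : word ⟨[], IsWord.nil⟩ = 1
  mul : ∀ u v, word u * word v ∈ Submodule.span ℚ (word '' {l | l.1.sum = u.1.sum + v.1.sum ∧
    l.1.count 3 ≤ u.1.count 3 + v.1.count 3})

attribute [instance] MotivicWords.ring MotivicWords.dom MotivicWords.alg

variable (M : MotivicWords)

/-- The elements of weight `n` and level at most `l`. -/
def F (n l : ℕ) : Submodule ℚ M.H :=
  Submodule.span ℚ (M.word '' {w | w.1.sum = n ∧ w.1.count 3 ≤ l})

lemma F_mono {n l l' : ℕ} (h : l ≤ l') : F M n l ≤ F M n l' :=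
  Submodule.span_mono (Set.image_mono fun _ hw => ⟨hw.1, hw.2.trans h⟩)

lemma F_mul {m n a b : ℕ} {x y : M.H} (hx : x ∈ F M m a) (hy : y ∈ F M n b) :
    x * y ∈ F M (m + n) (a + b) := by
  have h := Submodule.mul_mem_mul hx hy
  rw [F, F, Submodule.span_mul_span] at h
  refine (Submodule.span_le.2 ?_) h
  rintro _ ⟨_, ⟨u, hu, rfl⟩, _, ⟨v, hv, rfl⟩, rfl⟩
  refine Submodule.span_mono (Set.image_mono ?_) (M.mul u v)
  rintro w ⟨h1, h2⟩
  refine ⟨by rw [h1, hu.1, hv.1], ?_⟩
  have h3 := hu.2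
  have h4 := hv.2
  omega

lemma count_le {l : List ℕ} (hl : IsWord l) : 3 * l.count 3 ≤ l.sum := by
  induction l with
  | nil => simp
  | cons x l ih =>
    obtain ⟨h1, h2⟩ := isWord_cons.1 hl
    have h3 := ih h2
    rw [List.count_cons, List.sum_cons]
    rcases h1 with rfl | rfl
    · simp
      omega
    · simp
      omega

lemma word_mem (w : {l : List ℕ // IsWord l}) : M.word w ∈ F M w.1.sum (w.1.count 3) :=
  Submodule.subset_span ⟨w, ⟨rfl, le_rfl⟩, rfl⟩

lemma word_mem' (w : {l : List ℕ // IsWord l}) : M.word w ∈ F M w.1.sum w.1.sum :=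
  F_mono M (by have := count_le w.2; omega) (word_mem M w)

lemma grading : IsGrading (fun n => F M n n) where
  one := by
    show (1 : M.H) ∈ F M 0 0
    rw [← M.one]
    exact word_mem M ⟨[], IsWord.nil⟩
  mul := fun hx hy => F_mul M hx hy

/-- The component of weight `n`. -/
noncomputable def comp (n : ℕ) : M.H →ₗ[ℚ] M.H :=
  M.word.constr ℚ (fun w => if w.1.sum = n then M.word w else 0)

lemma comp_word (n : ℕ) (w : {l : List ℕ // IsWord l}) :
    comp M n (M.word w) = if w.1.sum = n then M.word w else 0 := by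
  rw [comp, Basis.constr_basis]

lemma comp_of_mem {m l : ℕ} (n : ℕ) {x : M.H} (hx : x ∈ F M m l) :
    comp M n x = if m = n then x else 0 := by
  refine Submodule.span_induction (p := fun x _ => comp M n x = if m = n then x else 0) ?_ ?_ ?_ ?_ hx
  · rintro _ ⟨w, ⟨h1, _⟩, rfl⟩
    rw [comp_word, h1]
  · rw [map_zero, ite_self]
  · intro x y _ _ h1 h2
    rw [map_add, h1, h2]
    split_ifs <;> simp
  · intro c x _ h
    rw [map_smul, h]
    split_ifs <;> simp

lemma comp_mem (n : ℕ) (x : M.H) : comp M n x ∈ F M n n := by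
  refine Submodule.span_induction (p := fun x _ => comp M n x ∈ F M n n) ?_ ?_ ?_ ?_
    (M.word.mem_span x)
  · rintro _ ⟨w, rfl⟩
    rw [comp_word]
    split_ifs with h
    · subst h
      exact word_mem' M w
    · exact Submodule.zero_mem _
  · rw [map_zero]
    exact Submodule.zero_mem _
  · intro x y _ _ h1 h2
    rw [map_add]
    exact Submodule.add_mem _ h1 h2
  · intro c x _ h
    rw [map_smul]
    exact Submodule.smul_mem _ c h

lemma exists_sum (x : M.H) : ∃ N, ∀ N', N ≤ N' → ∑ n ∈ Finset.range (N' + 1), comp M n x = x := by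
  refine Submodule.span_induction (p := fun x _ => ∃ N, ∀ N', N ≤ N' →
    ∑ n ∈ Finset.range (N' + 1), comp M n x = x) ?_ ?_ ?_ ?_ (M.word.mem_span x)
  · rintro _ ⟨w, rfl⟩
    refine ⟨w.1.sum, fun N' hN' => ?_⟩
    rw [Finset.sum_eq_single w.1.sum]
    · rw [comp_word, if_pos rfl]
    · intro n _ hn
      rw [comp_word, if_neg (fun h => hn h.symm)]
    · intro h
      exact absurd (Finset.mem_range.2 (by omega)) h
  · exact ⟨0, fun N' _ => by simp⟩
  · rintro x y _ _ ⟨N₁, h1⟩ ⟨N₂, h2⟩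
    refine ⟨max N₁ N₂, fun N' hN' => ?_⟩
    rw [Finset.sum_congr rfl fun n _ => map_add (comp M n) x y, Finset.sum_add_distrib,
      h1 N' ((le_max_left _ _).trans hN'), h2 N' ((le_max_right _ _).trans hN')]
  · rintro c x _ ⟨N, h⟩
    refine ⟨N, fun N' hN' => ?_⟩
    rw [Finset.sum_congr rfl fun n _ => map_smul (comp M n) c x, ← Finset.smul_sum, h N' hN']

lemma exists_top {x : M.H} (hx : x ≠ 0) : ∃ k, comp M k x ≠ 0 ∧
    ∑ n ∈ Finset.range (k + 1), comp M n x = x := by
  classical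
  obtain ⟨N, hN⟩ := exists_sum M x
  have h0 := hN N le_rfl
  obtain ⟨n₀, hn₀, hn₀'⟩ := Finset.exists_ne_zero_of_sum_ne_zero (h0 ▸ hx)
  obtain ⟨S, hS⟩ : ∃ S, S = (Finset.range (N + 1)).filter (fun n => comp M n x ≠ 0) := ⟨_, rfl⟩
  have hSne : S.Nonempty := ⟨n₀, hS ▸ Finset.mem_filter.2 ⟨hn₀, hn₀'⟩⟩
  have hmax := Finset.max'_mem S hSne
  obtain ⟨k, hk⟩ : ∃ k, k = S.max' hSne := ⟨_, rfl⟩
  rw [← hk] at hmax
  have h1 : k ∈ Finset.range (N + 1) ∧ comp M k x ≠ 0 := by
    rw [hS] at hmax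
    exact Finset.mem_filter.1 hmax
  have hsub : Finset.range (k + 1) ⊆ Finset.range (N + 1) := by
    intro n hn
    have e1 := Finset.mem_range.1 h1.1
    have e2 := Finset.mem_range.1 hn
    exact Finset.mem_range.2 (by omega)
  have hS2 : ∑ n ∈ Finset.range (k + 1), comp M n x = ∑ n ∈ Finset.range (N + 1), comp M n x := by
    refine Finset.sum_subset hsub fun n hn hn' => ?_
    by_contra h2
    have h3 : n ∈ S := hS ▸ Finset.mem_filter.2 ⟨hn, h2⟩
    have h4 := Finset.le_max' S n h3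
    rw [← hk] at h4
    exact hn' (Finset.mem_range.2 (by omega))
  exact ⟨k, h1.2, hS2.trans h0⟩

lemma isWord_two : IsWord [2] := isWord_cons.2 ⟨Or.inl rfl, IsWord.nil⟩

lemma isWord_three : IsWord [3] := isWord_cons.2 ⟨Or.inr rfl, IsWord.nil⟩

/-- The motivic `ζ(2)`. -/
noncomputable def z2 : M.H := M.word ⟨[2], isWord_two⟩

/-- The motivic `ζ(3)`. -/
noncomputable def z3 : M.H := M.word ⟨[3], isWord_three⟩

lemma z2_ne : z2 M ≠ 0 := M.word.ne_zero _

lemma z3_ne : z3 M ≠ 0 := M.word.ne_zero _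

lemma z2_mem : z2 M ∈ F M 2 0 := word_mem M ⟨[2], isWord_two⟩

lemma z3_mem : z3 M ∈ F M 3 1 := word_mem M ⟨[3], isWord_three⟩

lemma z2_pow_mem (j : ℕ) : z2 M ^ j ∈ F M (2 * j) 0 := by
  induction j with
  | zero =>
    rw [pow_zero, Nat.mul_zero]
    exact (grading M).one
  | succ j ih =>
    have h := F_mul M ih (z2_mem M)
    rw [pow_succ, Nat.mul_succ]
    rwa [Nat.add_zero] at h

lemma exists_low {n : ℕ} (hn : 2 ≤ n) : ∃ g ∈ F M n 1, g ≠ 0 := by
  rcases Nat.even_or_odd' n with ⟨j, rfl | rfl⟩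
  · exact ⟨z2 M ^ j, F_mono M (Nat.zero_le 1) (z2_pow_mem M j), pow_ne_zero j (z2_ne M)⟩
  · refine ⟨z2 M ^ (j - 1) * z3 M, ?_, mul_ne_zero (pow_ne_zero _ (z2_ne M)) (z3_ne M)⟩
    have h := F_mul M (z2_pow_mem M (j - 1)) (z3_mem M)
    have e : 2 * (j - 1) + 3 = 2 * j + 1 := by omega
    rw [e, Nat.zero_add] at h
    exact h

/-- **Multiples of small level with prescribed weights.** -/
lemma multiple {x : M.H} (hx : x ≠ 0) : ∃ C, ∀ (I : Finset ℕ) (a B : ℕ), C < I.card →
    (∀ n ∈ I, a ≤ n ∧ n ≤ a + B) → C * (B + 1) ≤ a → ∃ y : M.H, y ≠ 0 ∧ x ∣ y ∧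
      y ∈ Submodule.span ℚ (M.word '' {w | w.1.sum ∈ I ∧ w.1.count 3 ≤ C * (B + 1)}) := by
  classical
  obtain ⟨k, hk, hsum⟩ := exists_top M hx
  obtain ⟨c, hc⟩ : ∃ c : ℕ → M.H, c = fun n => if 2 ≤ n then comp M (n - 2) x * z2 M else 0 :=
    ⟨_, rfl⟩
  have hcmem : ∀ l, c l ∈ F M l l := by
    intro l
    rw [hc]
    by_cases h : 2 ≤ l
    · simp only [if_pos h]
      have h1 := F_mul M (comp_mem M (l - 2) x) (F_mono M (Nat.zero_le 2) (z2_mem M))
      rwa [Nat.sub_add_cancel h] at h1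
    · simp only [if_neg h]
      exact Submodule.zero_mem _
  have hck : c (k + 2) ≠ 0 := by
    rw [hc]
    simp only [if_pos (show 2 ≤ k + 2 by omega), Nat.add_sub_cancel]
    exact mul_ne_zero hk (z2_ne M)
  have hcsum : ∑ l ∈ Finset.range (k + 2 + 1), c l = x * z2 M := by
    rw [Finset.sum_range_succ', Finset.sum_range_succ']
    have h0 : c 0 = 0 := by rw [hc]; simp
    have h1 : c (0 + 1) = 0 := by rw [hc]; simp
    rw [h0, h1, add_zero, add_zero]
    have h2 : ∀ l, c (l + 1 + 1) = comp M l x * z2 M := fun l => by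
      rw [hc]
      simp only [if_pos (show 2 ≤ l + 1 + 1 by omega)]
      rfl
    rw [Finset.sum_congr rfl fun l _ => h2 l, ← Finset.sum_mul, hsum]
  obtain ⟨e, he⟩ : ∃ e, e = 3 ^ (k + 2) * (k + 2) := ⟨_, rfl⟩
  have hek : k + 2 ≤ e := by
    rw [he]
    exact Nat.le_mul_of_pos_left _ (by positivity)
  refine ⟨e + 3, fun I a B hI hIa haB => ?_⟩
  have heB : (e + 3) * (B + 1) = e * (B + 1) + 3 * B + 3 := by ring
  have hcardimg : k + 2 < (I.image (fun n => n - a)).card := by
    rw [Finset.card_image_of_injOn]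
    · omega
    · intro x hx y hy hxy
      have h1 := (hIa x hx).1
      have h2 := (hIa y hy).1
      have h3 : x - a = y - a := hxy
      omega
  obtain ⟨X, Γ, hΓ, hX, ⟨b₁, hb₁, hXb₁⟩, hdvd⟩ := exists_multiple_mem (grading M) hcmem
    (show 0 < k + 2 by omega) hck (I.image (fun n => n - a)) hcardimg B (fun b hb => by
      obtain ⟨n, hn, rfl⟩ := Finset.mem_image.1 hb
      have := (hIa n hn).2
      show n - a ≤ B
      omega)
  have hΓ' : Γ ≤ e * (B + 1) := by
    rw [he, mul_assoc]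
    exact hΓ
  obtain ⟨g, hg, hg0⟩ := exists_low M (n := a - Γ) (by omega)
  refine ⟨(∑ b ∈ I.image (fun n => n - a), X b) * g, mul_ne_zero (fun h0 => ?_) hg0, ?_, ?_⟩
  · have h5 : comp M (Γ + b₁) (∑ b ∈ I.image (fun n => n - a), X b) = X b₁ := by
      rw [map_sum, Finset.sum_eq_single b₁]
      · rw [comp_of_mem M _ (hX b₁ hb₁), if_pos rfl]
      · intro b hb hbb
        rw [comp_of_mem M _ (hX b hb), if_neg (by omega)]
      · intro h
        exact absurd hb₁ h
    rw [h0, map_zero] at h5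
    exact hXb₁ h5.symm
  · rw [hcsum] at hdvd
    exact ((Dvd.intro _ rfl).trans hdvd).mul_right g
  · rw [Finset.sum_mul]
    refine Submodule.sum_mem _ fun b hb => ?_
    have h5 := F_mul M (hX b hb) hg
    obtain ⟨n, hn, rfl⟩ := Finset.mem_image.1 hb
    have h6 := hIa n hn
    refine Submodule.span_mono (Set.image_mono ?_) h5
    rintro w ⟨h7, h8⟩
    refine ⟨?_, ?_⟩
    · have e2 : w.1.sum = n := by
        rw [h7]
        omega
      rw [e2]
      exact hn
    · omega

/-- Independent values separate the combinations of the motivic values. -/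
lemma per_ne {S : Set (List ℕ)} (hS : LinearIndependent ℚ (fun l : S => val l))
    {T : Set {l : List ℕ // IsWord l}} (hT : ∀ w ∈ T, w.1 ∈ S) {y : M.H}
    (hy : y ∈ Submodule.span ℚ (M.word '' T)) (h0 : M.per y = 0) : y = 0 := by
  have h1 : LinearIndepOn ℚ (fun w : {l : List ℕ // IsWord l} => val w.1) T := by
    have h2 := hS.comp (fun w : T => (⟨w.1.1, hT w.1 w.2⟩ : S)) (fun u v h => by
      have h3 := congrArg (fun s : S => s.1) h
      exact Subtype.ext (Subtype.ext h3))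
    exact h2
  obtain ⟨c, hc, rfl⟩ := (Finsupp.mem_span_image_iff_linearCombination ℚ).1 hy
  rw [linearIndepOn_iff] at h1
  have h2 : Finsupp.linearCombination ℚ (fun w : {l : List ℕ // IsWord l} => val w.1) c = 0 := by
    rw [← h0]
    have h3 : (fun w : {l : List ℕ // IsWord l} => val w.1) = M.per.toLinearMap ∘ M.word :=
      funext fun w => (M.per_word w).symm
    rw [h3]
    exact (Finsupp.apply_linearCombination ℚ M.per.toLinearMap M.word c).symm
  rw [h1 c hc h2, map_zero]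

/-- Dependent values give an element of the kernel of the period map. -/
lemma exists_relation {T : Set (List ℕ)} (hT : ∀ l ∈ T, IsWord l)
    (h : ¬ LinearIndependent ℚ (fun l : T => val l)) :
    ∃ x : M.H, x ≠ 0 ∧ M.per x = 0 ∧ x ∈ Submodule.span ℚ (M.word '' {w | w.1 ∈ T}) := by
  by_contra hcon
  push Not at hcon
  refine h ?_
  have h1 : LinearIndependent ℚ (fun l : T => M.word ⟨l.1, hT l.1 l.2⟩) :=
    M.word.linearIndependent.comp (fun l : T => (⟨l.1, hT l.1 l.2⟩ : {l : List ℕ // IsWord l}))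
      (fun u v h => Subtype.ext (congrArg (fun w : {l : List ℕ // IsWord l} => w.1) h))
  have h2 : LinearIndependent ℚ (M.per.toLinearMap ∘ fun l : T => M.word ⟨l.1, hT l.1 l.2⟩) := by
    refine h1.map ?_
    rw [Submodule.disjoint_def]
    intro x hx hx0
    by_contra hne
    refine hcon x hne hx0 (Submodule.span_mono ?_ hx)
    rintro _ ⟨l, rfl⟩
    exact ⟨⟨l.1, hT l.1 l.2⟩, l.2, rfl⟩
  have h3 : (fun l : T => val l) = M.per.toLinearMap ∘ fun l : T => M.word ⟨l.1, hT l.1 l.2⟩ :=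
    funext fun l => (M.per_word ⟨l.1, hT l.1 l.2⟩).symm
  rw [h3]
  exact h2

/-- `S` contains, for every `C`, all words of more than `C` weights in an interval `[a, a + B]` with
`C (B + 1) ≤ a` that have at most `C (B + 1)` letters `3`. -/
def LevelRich (S : Set (List ℕ)) : Prop :=
  ∀ C : ℕ, ∃ (I : Finset ℕ) (a B : ℕ), C < I.card ∧ (∀ n ∈ I, a ≤ n ∧ n ≤ a + B) ∧
    C * (B + 1) ≤ a ∧ ∀ l : List ℕ, IsWord l → l.sum ∈ I → l.count 3 ≤ C * (B + 1) → l ∈ S

include M in
/-- **Words with few letters `3`.** -/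
theorem few (hB : Brown) (S : Set (List ℕ)) (hS : ∀ l ∈ S, IsWord l) (hR : LevelRich S) :
    HoffmanBasis ↔ LinearIndependent ℚ (fun l : S => val l) := by
  constructor
  · intro h
    have h1 : LinearIndepOn ℚ val {l : List ℕ | IsWord l} := h.1
    exact h1.mono fun l hl => hS l hl
  · intro hLI
    constructor
    · by_contra hcon
      obtain ⟨x, hx, hx0, _⟩ := exists_relation M (T := {l : List ℕ | IsWord l}) (fun l hl => hl) hcon
      obtain ⟨C, hC⟩ := multiple M hx
      obtain ⟨I, a, B, h1, h2, h3, h4⟩ := hR C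
      obtain ⟨y, hy, ⟨u, rfl⟩, hyI⟩ := hC I a B h1 h2 h3
      refine hy (per_ne M hLI (T := {w | w.1.sum ∈ I ∧ w.1.count 3 ≤ C * (B + 1)})
        (fun w hw => h4 w.1 w.2 hw.1 hw.2) hyI ?_)
      rw [map_mul, hx0, zero_mul]
    · refine le_antisymm ?_ (iSup_le fun N => ?_)
      · rw [Submodule.span_le]
        rintro _ ⟨l, rfl⟩
        exact (le_iSup Z l.1.sum) (val_mem hB l.2)
      · rw [hB, Submodule.span_le]
        rintro _ ⟨l, h3, _, rfl⟩
        exact Submodule.subset_span ⟨⟨l, h3⟩, rfl⟩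

/-- All weights. -/
lemma levelRich_univ {ℓ : ℕ → ℕ} (hℓ : Tendsto ℓ atTop atTop) :
    LevelRich {l : List ℕ | IsWord l ∧ l.count 3 ≤ ℓ l.sum} := by
  intro C
  obtain ⟨N, hN⟩ := eventually_atTop.1 (hℓ.eventually_ge_atTop (C * (C + 1)))
  refine ⟨Finset.Icc (max N (C * (C + 1))) (max N (C * (C + 1)) + C), max N (C * (C + 1)), C, ?_,
    fun n hn => Finset.mem_Icc.1 hn, le_max_right _ _, fun l hl h1 h2 => ⟨hl, h2.trans (hN _ ?_)⟩⟩
  · rw [Nat.card_Icc]
    omega
  · exact (le_max_left _ _).trans (Finset.mem_Icc.1 h1).1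

/-- Sparse weights and a small share of letters `3`. -/
lemma levelRich_clustered {A : Set ℕ} (hA : Clustered A) {ε : ℝ} (hε : 0 < ε) :
    LevelRich {l : List ℕ | IsWord l ∧ l.sum ∈ A ∧ (l.count 3 : ℝ) ≤ ε * l.sum} := by
  intro C
  obtain ⟨δ, hδ⟩ : ∃ δ : ℝ, δ = min ε 1 / (2 * (C + 1)) := ⟨_, rfl⟩
  have hm0 : 0 < min ε 1 := lt_min hε one_pos
  have hδ0 : 0 < δ := by rw [hδ]; positivity
  obtain ⟨N, hN⟩ := exists_nat_gt (1 / δ)
  obtain ⟨I, hI, hIA, hIr⟩ := hA C N δ hδ0
  have hne : I.Nonempty := by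
    rw [← Finset.card_pos]
    omega
  obtain ⟨a, ha⟩ : ∃ a, a = I.min' hne := ⟨_, rfl⟩
  have haI : a ∈ I := ha ▸ Finset.min'_mem I hne
  have ha_le : ∀ n ∈ I, a ≤ n := fun n hn => ha ▸ Finset.min'_le I n hn
  have hmaxI : I.max' hne ∈ I := Finset.max'_mem I hne
  obtain ⟨B, hB⟩ : ∃ B, B = I.max' hne - a := ⟨_, rfl⟩
  have hB' : ((B : ℕ) : ℝ) ≤ δ * a := by
    have h1 := hIr a haI _ hmaxI
    rw [hB, Nat.cast_sub (ha_le _ hmaxI)]
    linarith
  have ha1 : (1 : ℝ) ≤ δ * a := by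
    have h1 : (N : ℝ) ≤ a := by exact_mod_cast (hIA a haI).2
    have h2 : 1 / δ ≤ a := hN.le.trans h1
    rw [div_le_iff₀ hδ0] at h2
    linarith
  have hmain : ((C : ℝ) * (B + 1)) ≤ min ε 1 * a := by
    have h1 : (C : ℝ) * (B + 1) ≤ (C + 1) * (2 * (δ * a)) := by
      have : (0 : ℝ) ≤ C := Nat.cast_nonneg C
      have h2 : (B : ℝ) + 1 ≤ 2 * (δ * a) := by linarith
      have h3 : (0 : ℝ) ≤ (B : ℝ) + 1 := by positivity
      nlinarith
    have h2 : ((C : ℝ) + 1) * (2 * (δ * a)) = min ε 1 * a := by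
      rw [hδ]
      field_simp
    linarith
  have ha0 : (0 : ℝ) ≤ a := Nat.cast_nonneg a
  refine ⟨I, a, B, hI, fun n hn => ⟨ha_le n hn, ?_⟩, ?_, fun l hl h1 h2 => ⟨hl, (hIA _ h1).1, ?_⟩⟩
  · have h1 := Finset.le_max' I n hn
    have h2 := ha_le _ hmaxI
    omega
  · have h1 : ((C * (B + 1) : ℕ) : ℝ) ≤ a := by
      push_cast
      refine hmain.trans ?_
      have := min_le_right ε 1
      nlinarith
    exact_mod_cast h1
  · have h3 : (l.count 3 : ℝ) ≤ ((C * (B + 1) : ℕ) : ℝ) := by exact_mod_cast h2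
    have h4 : (a : ℝ) ≤ l.sum := by exact_mod_cast ha_le _ h1
    push_cast at h3
    have h5 : min ε 1 * a ≤ ε * l.sum :=
      mul_le_mul (min_le_left ε 1) h4 ha0 hε.le
    linarith

include M in
/-- **The finite version.** -/
theorem few_finite (m j : ℕ)
    (h : LinearIndependent ℚ (fun l : {l : List ℕ | IsWord l ∧ 2 * j ≤ l.sum ∧ l.sum ≤ 2 * j + m ∧
      3 * l.count 3 ≤ m} => val l)) :
    LinearIndependent ℚ (fun l : {l : List ℕ | IsWord l ∧ l.sum ≤ m} => val l) := by
  by_contra hcon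
  obtain ⟨x, hx, hx0, hxm⟩ := exists_relation M (T := {l : List ℕ | IsWord l ∧ l.sum ≤ m})
    (fun l hl => hl.1) hcon
  refine mul_ne_zero hx (pow_ne_zero j (z2_ne M)) (per_ne M h
    (T := {w | 2 * j ≤ w.1.sum ∧ w.1.sum ≤ 2 * j + m ∧ 3 * w.1.count 3 ≤ m})
    (fun w hw => ⟨w.2, hw⟩) ?_ (by rw [map_mul, hx0, zero_mul]))
  refine Submodule.span_induction (p := fun x _ => x * z2 M ^ j ∈ Submodule.span ℚ (M.word ''
    {w | 2 * j ≤ w.1.sum ∧ w.1.sum ≤ 2 * j + m ∧ 3 * w.1.count 3 ≤ m})) ?_ ?_ ?_ ?_ hxm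
  · rintro _ ⟨w, ⟨_, hw⟩, rfl⟩
    refine Submodule.span_mono (Set.image_mono ?_) (F_mul M (word_mem M w) (z2_pow_mem M j))
    rintro u ⟨h1, h2⟩
    have h3 := count_le w.2
    have h4 : w.1.sum ≤ m := hw
    exact ⟨by omega, by omega, by omega⟩
  · rw [zero_mul]
    exact Submodule.zero_mem _
  · intro x y _ _ h1 h2
    rw [add_mul]
    exact Submodule.add_mem _ h1 h2
  · intro c x _ h1
    rw [smul_mul_assoc]
    exact Submodule.smul_mem _ c h1

include M in
/-- **One weight at a time.** -/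
theorem few_homogeneous (A : Set ℕ) (hA : A.Infinite) {ℓ : ℕ → ℕ} (hℓ : Tendsto ℓ atTop atTop) :
    (∀ N, LinearIndependent ℚ (fun l : {l : List ℕ | IsWord l ∧ l.sum = N} => val l)) ↔
      ∀ N ∈ A, LinearIndependent ℚ
        (fun l : {l : List ℕ | IsWord l ∧ l.sum = N ∧ l.count 3 ≤ ℓ N} => val l) := by
  constructor
  · intro h N _
    have h1 : LinearIndepOn ℚ val {l : List ℕ | IsWord l ∧ l.sum = N} := h N
    exact h1.mono fun l hl => ⟨hl.1, hl.2.1⟩
  · intro h N
    by_contra hcon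
    obtain ⟨x, hx, hx0, hxm⟩ := exists_relation M (T := {l : List ℕ | IsWord l ∧ l.sum = N})
      (fun l hl => hl.1) hcon
    obtain ⟨N₁, hN₁⟩ := eventually_atTop.1 (hℓ.eventually_ge_atTop (N + 1))
    obtain ⟨n, hn, hn'⟩ := hA.exists_gt (max N₁ (N + 2))
    have h1 : N₁ ≤ n := (le_max_left _ _).trans hn'.le
    have h2 : N + 2 ≤ n := (le_max_right _ _).trans hn'.le
    obtain ⟨g, hg, hg0⟩ := exists_low M (n := n - N) (by omega)
    have hxF : x ∈ F M N N := by
      refine Submodule.span_mono (Set.image_mono ?_) hxm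
      rintro w ⟨h3, h4⟩
      exact ⟨h4, by have := count_le w.2; omega⟩
    have h3 := F_mul M hxF hg
    have e : N + (n - N) = n := by omega
    rw [e] at h3
    refine mul_ne_zero hx hg0 (per_ne M (h n hn) (T := {w | w.1.sum = n ∧ w.1.count 3 ≤ N + 1})
      (fun w hw => ⟨w.2, hw.1, hw.2.trans (hN₁ n h1)⟩) h3 (by rw [map_mul, hx0, zero_mul]))

end Pool.Agent.V7H56.HL
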